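import Mathlib

/-!
# A finite inverse semigroup with knit degree two

The inverse semigroup generated by the partial bijection `a` of `{0, ..., 5}` with
`0 ↦ 1 ↦ 2` and `3 ↦ 4 ↦ 5 ↦ 3` has 16 elements. Its knit degree is `2`: there is no left path of
length `1`, and `a, a², b` is a left path of length `2`, where `b` is the restriction of `a` to
`{0, 3, 4, 5}`.
-/

set_option autoImplicit false

namespace Pool.Agent.Results.MP_90db2d_al.KnitDegree

/-- `S` is an inverse semigroup: every `x` has exactly one `y` with `xyx = x` and `yxy = y`. -/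
def IsInverseSemigroup (S : Type) [Semigroup S] : Prop :=
  ∀ x : S, ∃! y : S, x * y * x = x ∧ y * x * y = y

/-- `x` lies in the center. -/
def IsCentral {S : Type} [Semigroup S] (x : S) : Prop := ∀ y, x * y = y * x

/-- The commuting graph: the vertices are the non-central elements, and two distinct vertices are
adjacent if they commute. -/
def commutingGraph (S : Type) [Semigroup S] : SimpleGraph {x : S // ¬ IsCentral x} where
  Adj x y := x ≠ y ∧ (x : S) * y = y * x
  symm := ⟨fun _ _ h => ⟨h.1.symm, h.2.symm⟩⟩
  loopless := ⟨fun _ h => h.1 rfl⟩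

/-- A left path: a path from `x` to `y ≠ x` with `x z = y z` for all vertices `z` of the path. -/
def IsLeftPath {S : Type} [Semigroup S] {x y : {x : S // ¬ IsCentral x}}
    (w : (commutingGraph S).Walk x y) : Prop :=
  w.IsPath ∧ x ≠ y ∧ ∀ z ∈ w.support, (x : S) * z = y * z

/-- The knit degree is defined: there is a left path. -/
def KnitDegreeDefined (S : Type) [Semigroup S] : Prop :=
  ∃ (x y : {x : S // ¬ IsCentral x}) (w : (commutingGraph S).Walk x y), IsLeftPath w

/-- The knit degree: the smallest length of a left path. -/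
noncomputable def knitDegree (S : Type) [Semigroup S] : ℕ :=
  sInf {n : ℕ | ∃ (x y : {x : S // ¬ IsCentral x}) (w : (commutingGraph S).Walk x y),
    IsLeftPath w ∧ w.length = n}

/-- The multiplication table, as a number in base 16. -/
def table : ℕ := 11241421263150735631244760943053790486428902408145918394441456080147973219256303617013413387352988156245384940308934939375829727084240634972428152895256374559714807298995028282629028228411447378976291670173490469064026236947744018837552783711571552370669261487238266437398623705371456972403208676909240160784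

/-- The multiplication. -/
def mulFn (x y : Fin 16) : Fin 16 :=
  ⟨table / 16 ^ (16 * x.val + y.val) % 16, Nat.mod_lt _ (by norm_num)⟩

theorem mulFn_assoc : ∀ x y z : Fin 16, mulFn (mulFn x y) z = mulFn x (mulFn y z) := by
  decide +kernel

/-- The inverse semigroup of order 16. -/
structure K : Type where
  /-- the number of the element -/
  val : Fin 16
  deriving DecidableEq

instance : Semigroup K where
  mul x y := ⟨mulFn x.val y.val⟩
  mul_assoc x y z := congrArg K.mk (mulFn_assoc x.val y.val z.val)

theorem mul_def (x y : Fin 16) : (K.mk x) * (K.mk y) = K.mk (mulFn x y) := rfl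

instance : Finite K := Finite.of_injective K.val (fun x y h => by cases x; cases y; simp_all)

theorem inverse_fn : ∀ x : Fin 16, ∃ y : Fin 16,
    (mulFn (mulFn x y) x = x ∧ mulFn (mulFn y x) y = y) ∧
    ∀ z : Fin 16, (mulFn (mulFn x z) x = x ∧ mulFn (mulFn z x) z = z) → z = y := by
  decide +kernel

theorem inverse_K : IsInverseSemigroup K := by
  rintro ⟨x⟩
  obtain ⟨y, ⟨h1, h2⟩, h3⟩ := inverse_fn x
  refine ⟨⟨y⟩, ⟨congrArg K.mk h1, congrArg K.mk h2⟩, ?_⟩
  rintro ⟨z⟩ ⟨h4, h5⟩
  exact congrArg K.mk (h3 z ⟨congrArg K.val h4, congrArg K.val h5⟩)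

theorem not_central (x y : Fin 16) (h : mulFn x y ≠ mulFn y x) : ¬ IsCentral (K.mk x) :=
  fun hc => h (congrArg K.val (hc ⟨y⟩))

/-- There is no left path of length one, on the level of the table. -/
theorem no_short : ∀ x y : Fin 16, x ≠ y → mulFn x y = mulFn y x → mulFn x x = mulFn y x →
    mulFn x y = mulFn y y →
    (∀ z, mulFn x z = mulFn z x) ∨ (∀ z, mulFn y z = mulFn z y) := by
  decide +kernel

theorem K_left_path : ∃ (x y : {x : K // ¬ IsCentral x}) (w : (commutingGraph K).Walk x y),
    IsLeftPath w ∧ w.length = 2 := by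
  let x : {x : K // ¬ IsCentral x} := ⟨⟨14⟩, not_central 14 3 (by decide +kernel)⟩
  let y : {x : K // ¬ IsCentral x} := ⟨⟨15⟩, not_central 15 3 (by decide +kernel)⟩
  let z : {x : K // ¬ IsCentral x} := ⟨⟨13⟩, not_central 13 3 (by decide +kernel)⟩
  have hxy : x ≠ y := fun h => absurd (congrArg (fun t => t.1.val) h)
    (show (14 : Fin 16) ≠ 15 by decide)
  have hyz : y ≠ z := fun h => absurd (congrArg (fun t => t.1.val) h)
    (show (15 : Fin 16) ≠ 13 by decide)
  have hxz : x ≠ z := fun h => absurd (congrArg (fun t => t.1.val) h)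
    (show (14 : Fin 16) ≠ 13 by decide)
  have a1 : (commutingGraph K).Adj x y := ⟨hxy, congrArg K.mk
    (show mulFn 14 15 = mulFn 15 14 by decide +kernel)⟩
  have a2 : (commutingGraph K).Adj y z := ⟨hyz, congrArg K.mk
    (show mulFn 15 13 = mulFn 13 15 by decide +kernel)⟩
  refine ⟨x, z, SimpleGraph.Walk.cons a1 (SimpleGraph.Walk.cons a2 SimpleGraph.Walk.nil),
    ⟨?_, hxz, ?_⟩, rfl⟩
  · simp [hxy, hyz, hxz]
  · intro t ht
    simp only [SimpleGraph.Walk.support_cons, SimpleGraph.Walk.support_nil, List.mem_cons,
      List.not_mem_nil, or_false] at ht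
    rcases ht with rfl | rfl | rfl
    · exact congrArg K.mk (show mulFn 14 14 = mulFn 13 14 by decide +kernel)
    · exact congrArg K.mk (show mulFn 14 15 = mulFn 13 15 by decide +kernel)
    · exact congrArg K.mk (show mulFn 14 13 = mulFn 13 13 by decide +kernel)

theorem two_le (x y : {x : K // ¬ IsCentral x}) (w : (commutingGraph K).Walk x y)
    (hw : IsLeftPath w) : 2 ≤ w.length := by
  by_contra hlt
  obtain ⟨-, hne, hw⟩ := hw
  have h01 : w.length = 0 ∨ w.length = 1 := by omega
  rcases h01 with h | h
  · exact hne (SimpleGraph.Walk.eq_of_length_eq_zero h)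
  · have hadj := SimpleGraph.Walk.adj_of_length_eq_one h
    have h1 := hw x (SimpleGraph.Walk.start_mem_support w)
    have h2 := hw y (SimpleGraph.Walk.end_mem_support w)
    obtain ⟨⟨x⟩, hx⟩ := x
    obtain ⟨⟨y⟩, hy⟩ := y
    have hxy : x ≠ y := fun h => hne (Subtype.ext (congrArg K.mk h))
    rcases no_short x y hxy (congrArg K.val hadj.2) (congrArg K.val h1) (congrArg K.val h2)
      with h3 | h3
    · apply hx
      rintro ⟨z⟩
      exact congrArg K.mk (h3 z)
    · apply hy
      rintro ⟨z⟩
      exact congrArg K.mk (h3 z)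

/-- There is a finite non-commutative inverse semigroup whose knit degree is defined and equal to
`2`. -/
theorem result : ∃ (S : Type) (_ : Semigroup S), Finite S ∧ IsInverseSemigroup S ∧
    (∃ x y : S, x * y ≠ y * x) ∧ KnitDegreeDefined S ∧ knitDegree S = 2 := by
  refine ⟨K, inferInstance, inferInstance, inverse_K, ⟨⟨14⟩, ⟨3⟩, ?_⟩, ?_, ?_⟩
  · intro h
    exact absurd (congrArg K.val h) (show mulFn 14 3 ≠ mulFn 3 14 by decide +kernel)
  · obtain ⟨x, y, w, hw, -⟩ := K_left_path
    exact ⟨x, y, w, hw⟩
  · apply le_antisymm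
    · exact Nat.sInf_le K_left_path
    · apply le_csInf ⟨2, K_left_path⟩
      rintro n ⟨x, y, w, hw, rfl⟩
      exact two_le x y w hw

end Pool.Agent.Results.MP_90db2d_al.KnitDegree
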